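import Pool.Agent.Helper22.CR.C3

/-!
# Copyless cost register automata over `ℚ` are not closed under reversal
-/

set_option autoImplicit false
set_option linter.unusedSectionVars false

namespace Pool.Agent.Results.MP_32a6cf_lc.NotClosedUnderReversal

/-- Terms built from the registers `x_i` (`i : Fin d`) and rational constants with `+` and `·`. -/
inductive Term (d : ℕ) : Type
  | var (i : Fin d) : Term d
  | const (c : ℚ) : Term d
  | add (s t : Term d) : Term d
  | mul (s t : Term d) : Term d

/-- The value of a term. -/
def Term.eval {d : ℕ} (x : Fin d → ℚ) : Term d → ℚ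
  | .var i => x i
  | .const c => c
  | .add s t => s.eval x + t.eval x
  | .mul s t => s.eval x * t.eval x

/-- The number of occurrences of the register `x_i` in a term. -/
def Term.occ {d : ℕ} (i : Fin d) : Term d → ℕ
  | .var j => if j = i then 1 else 0
  | .const _ => 0
  | .add s t => s.occ i + t.occ i
  | .mul s t => s.occ i + t.occ i

/-- A copyless cost register automaton over `ℚ` with input alphabet `S`. -/
structure CCRA (S : Type) where
  /-- the states -/
  State : Type
  /-- there are finitely many states -/
  finite : Finite State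
  /-- the initial state -/
  start : State
  /-- the number of registers -/
  d : ℕ
  /-- the next state -/
  next : State → S → State
  /-- the update tuple -/
  upd : State → S → Fin d → Term d
  /-- the initial register values -/
  init : Fin d → ℚ
  /-- the output terms -/
  out : State → Term d
  /-- every register occurs at most once in the whole update tuple -/
  upd_copyless : ∀ q a i, ∑ j, (upd q a j).occ i ≤ 1
  /-- every register occurs at most once in the output term -/
  out_copyless : ∀ q i, (out q).occ i ≤ 1

/-- One step: from state `c.1` and register values `c.2`, read the letter `a`, moving to the next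
state and updating all registers simultaneously. -/
def CCRA.step {S : Type} (A : CCRA S) (c : A.State × (Fin A.d → ℚ)) (a : S) :
    A.State × (Fin A.d → ℚ) :=
  (A.next c.1 a, fun j => (A.upd c.1 a j).eval c.2)

/-- The configuration (state and register values) reached after reading `w`. -/
def CCRA.config {S : Type} (A : CCRA S) (w : List S) : A.State × (Fin A.d → ℚ) :=
  w.foldl A.step (A.start, A.init)

/-- The value of the automaton on the word `w`. -/
def CCRA.value {S : Type} (A : CCRA S) (w : List S) : ℚ :=
  (A.out (A.config w).1).eval (A.config w).2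

/-- `f` is recognisable by a `ℚ`-CCRA. -/
def Recognisable {S : Type} (f : List S → ℚ) : Prop := ∃ A : CCRA S, ∀ w, A.value w = f w

section padic

open Pool.Agent.Helper22.CR Function

variable {p : ℕ} [Fact p.Prime] {d : ℕ}

/-- `p`-adic evaluation -/
noncomputable def ev (p : ℕ) [Fact p.Prime] {d : ℕ} (x : Fin d → ℚ_[p]) : Term d → ℚ_[p]
  | .var i => x i
  | .const c => (c : ℚ_[p])
  | .add s t => ev p x s + ev p x t
  | .mul s t => ev p x s * ev p x t

lemma ev_cast (x : Fin d → ℚ) (t : Term d) :
    ev p (fun i => (x i : ℚ_[p])) t = ((t.eval x : ℚ) : ℚ_[p]) := by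
  induction t with
  | var i => rfl
  | const c => rfl
  | add s t hs ht => simp only [ev, Term.eval, hs, ht]; push_cast; rfl
  | mul s t hs ht => simp only [ev, Term.eval, hs, ht]; push_cast; rfl

lemma ev_indep (i : Fin d) (t : Term d) (h : t.occ i = 0) (Y : Fin d → ℚ_[p]) (z : ℚ_[p]) :
    ev p (update Y i z) t = ev p Y t := by
  induction t with
  | var j =>
    have hj : j ≠ i := by
      rintro rfl
      simp [Term.occ] at h
    simp only [ev]
    exact update_of_ne hj _ _
  | const c => rfl
  | add s t hs ht =>
    simp only [Term.occ, Nat.add_eq_zero_iff] at h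
    simp only [ev, hs h.1, ht h.2]
  | mul s t hs ht =>
    simp only [Term.occ, Nat.add_eq_zero_iff] at h
    simp only [ev, hs h.1, ht h.2]

lemma ev_affine (i : Fin d) (t : Term d) (h : t.occ i ≤ 1) (Y : Fin d → ℚ_[p]) (z : ℚ_[p]) :
    ev p (update Y i z) t = (1 - z) * ev p (update Y i 0) t + z * ev p (update Y i 1) t := by
  induction t with
  | var j =>
    simp only [ev]
    by_cases hj : j = i
    · subst hj; simp
    · simp only [update_of_ne hj]; ring
  | const c => simp only [ev]; ring
  | add s t hs ht =>
    simp only [Term.occ] at h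
    simp only [ev]
    rw [hs (by omega), ht (by omega)]
    ring
  | mul s t hs ht =>
    simp only [Term.occ] at h
    simp only [ev]
    rcases (by omega : s.occ i = 0 ∨ t.occ i = 0) with h0 | h0
    · rw [ev_indep i s h0, ev_indep i s h0, ev_indep i s h0, ht (by omega)]
      ring
    · rw [ev_indep i t h0, ev_indep i t h0, ev_indep i t h0, hs (by omega)]
      ring

lemma ev_MA (t : Term d) (h : ∀ i, t.occ i ≤ 1) : MA (fun Y : Fin d → ℚ_[p] => ev p Y t) :=
  fun Y j z => ev_affine j t (h j) Y z

lemma ev_cont (t : Term d) : Continuous (fun Y : Fin d → ℚ_[p] => ev p Y t) := by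
  induction t with
  | var j => exact continuous_apply j
  | const c => exact continuous_const
  | add s t hs ht => exact hs.add ht
  | mul s t hs ht => exact hs.mul ht

/-- product of the denominators of the constants -/
def dens : Term d → ℕ
  | .var _ => 1
  | .const c => c.den
  | .add s t => dens s * dens t
  | .mul s t => dens s * dens t

lemma dens_pos (t : Term d) : 0 < dens t := by
  induction t with
  | var j => exact Nat.one_pos
  | const c => exact c.den_pos
  | add s t hs ht => exact Nat.mul_pos hs ht
  | mul s t hs ht => exact Nat.mul_pos hs ht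

lemma ev_int (t : Term d) (h : ¬ p ∣ dens t) (Y : Fin d → ℚ_[p]) (hY : ∀ j, Y j ∈ Op p) :
    ev p Y t ∈ Op p := by
  induction t with
  | var j => exact hY j
  | const c => exact mem_Op.2 (Padic.norm_rat_le_one h)
  | add s t hs ht =>
    exact (Op p).add_mem (hs fun h' => h (h'.mul_right _)) (ht fun h' => h (h'.mul_left _))
  | mul s t hs ht =>
    exact (Op p).mul_mem (hs fun h' => h (h'.mul_right _)) (ht fun h' => h (h'.mul_left _))

/-- a copyless tuple of terms gives a copyless map -/
lemma tuple_CL (T : Fin d → Term d) (h : ∀ i, ∑ j, (T j).occ i ≤ 1) :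
    ∃ φ, CL (fun (Y : Fin d → ℚ_[p]) j => ev p Y (T j)) φ := by
  classical
  have huniq : ∀ i j j', (T j).occ i ≠ 0 → (T j').occ i ≠ 0 → j = j' := by
    intro i j j' h1 h2
    by_contra hne
    have h3 : ∑ k ∈ {j, j'}, (T k).occ i ≤ ∑ k, (T k).occ i :=
      Finset.sum_le_sum_of_subset (Finset.subset_univ _)
    rw [Finset.sum_pair hne] at h3
    have h4 := h i
    omega
  refine ⟨fun i => if hi : ∃ j, (T j).occ i ≠ 0 then some hi.choose else none, ?_, ?_⟩
  · intro l j Y t hl
    apply ev_indep
    by_contra h0
    apply hl
    have hex : ∃ j, (T j).occ l ≠ 0 := ⟨j, h0⟩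
    simp only [dif_pos hex]
    rw [huniq l _ j hex.choose_spec h0]
  · intro j
    apply ev_MA
    intro i
    exact (Finset.single_le_sum (f := fun k => (T k).occ i) (fun _ _ => Nat.zero_le _)
      (Finset.mem_univ j)).trans (h i)

end padic

section run

open Pool.Agent.Helper22.CR Function

variable {S : Type} {p : ℕ} [Fact p.Prime]

/-- the state reached -/
def rS (A : CCRA S) (q : A.State) (w : List S) : A.State := w.foldl A.next q

/-- the register map -/
noncomputable def rF (p : ℕ) [Fact p.Prime] (A : CCRA S) :
    A.State → List S → (Fin A.d → ℚ_[p]) → Fin A.d → ℚ_[p]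
  | _, [], Y => Y
  | q, a :: w, Y => rF p A (A.next q a) w (fun j => ev p Y (A.upd q a j))

lemma rS_append (A : CCRA S) (q : A.State) (u v : List S) :
    rS A q (u ++ v) = rS A (rS A q u) v := List.foldl_append

lemma rF_append (A : CCRA S) (q : A.State) (u v : List S) (Y : Fin A.d → ℚ_[p]) :
    rF p A q (u ++ v) Y = rF p A (rS A q u) v (rF p A q u Y) := by
  induction u generalizing q Y with
  | nil => rfl
  | cons a u ih => exact ih _ _

lemma run_cast (A : CCRA S) (w : List S) (q : A.State) (x : Fin A.d → ℚ) :
    (w.foldl A.step (q, x)).1 = rS A q w ∧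
    rF p A q w (fun j => (x j : ℚ_[p])) = fun j => ((w.foldl A.step (q, x)).2 j : ℚ_[p]) := by
  induction w generalizing q x with
  | nil => exact ⟨rfl, rfl⟩
  | cons a w ih =>
    obtain ⟨h1, h2⟩ := ih (A.next q a) (fun j => (A.upd q a j).eval x)
    refine ⟨h1, ?_⟩
    show rF p A (A.next q a) w (fun j => ev p (fun j => (x j : ℚ_[p])) (A.upd q a j)) = _
    simp only [ev_cast]
    exact h2

lemma rF_CL (A : CCRA S) (q : A.State) (w : List S) : ∃ φ, CL (rF p A q w) φ := by
  induction w generalizing q with
  | nil => exact ⟨_, CL.id⟩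
  | cons a w ih =>
    obtain ⟨φ, hφ⟩ := tuple_CL (p := p) (A.upd q a) (A.upd_copyless q a)
    obtain ⟨ψ, hψ⟩ := ih (A.next q a)
    exact ⟨_, hφ.comp hψ⟩

lemma rF_int (A : CCRA S) (hA : ∀ q a j, ¬ p ∣ dens (A.upd q a j)) (q : A.State) (w : List S)
    (Y : Fin A.d → ℚ_[p]) (hY : ∀ j, Y j ∈ Op p) : ∀ j, rF p A q w Y j ∈ Op p := by
  induction w generalizing q Y with
  | nil => exact hY
  | cons a w ih => exact ih _ _ fun j => ev_int _ (hA q a j) Y hY

/-- the word `b a^{n+1}` -/
def seg (a b : S) (n : ℕ) : List S := b :: List.replicate (n + 1) a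

/-- the concatenation of the words `b a^{n+1}` -/
def word (a b : S) (ns : List ℕ) : List S := ns.flatMap (seg a b)

lemma not_rec_of [Finite S] (a b : S) (g : List S → ℚ)
    (hg : ∀ ns, ns ≠ [] → g (word a b ns) = (Gv ns : ℚ)) : ¬ Recognisable g := by
  rintro ⟨A, hA⟩
  have := A.finite
  -- choose the prime
  obtain ⟨M, hM⟩ := (Set.finite_range
    (fun z : A.State × S × Fin A.d => dens (A.upd z.1 z.2.1 z.2.2))).bddAbove
  obtain ⟨p, hpM, hp⟩ := Nat.exists_infinite_primes (M + 1)
  have : Fact p.Prime := ⟨hp⟩
  have hden : ∀ q c j, ¬ p ∣ dens (A.upd q c j) := by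
    intro q c j hdvd
    have h1 := Nat.le_of_dvd (dens_pos _) hdvd
    have h2 : dens (A.upd q c j) ≤ M := hM ⟨(q, c, j), rfl⟩
    omega
  refine no_seg p (fun q n => rS A q (seg a b n)) (fun q n => rF p A q (seg a b n))
    (fun q n => rF_CL A q _) (fun q n Y hY => rF_int A hden q _ Y hY) A.start
    (fun j => (A.init j : ℚ_[p])) (fun q Y => ev p Y (A.out q))
    (fun q => ev_MA _ (A.out_copyless q)) (fun q => ev_cont _) ?_
  have hw : ∀ (ns : List ℕ) (q : A.State) (Y : Fin A.d → ℚ_[p]),
      sS (fun q n => rS A q (seg a b n)) q ns = rS A q (word a b ns) ∧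
      sF (fun q n => rS A q (seg a b n)) (fun q n => rF p A q (seg a b n)) q ns Y =
        rF p A q (word a b ns) Y := by
    intro ns
    induction ns with
    | nil => intro q Y; exact ⟨rfl, rfl⟩
    | cons n ns ih =>
      intro q Y
      obtain ⟨h1, h2⟩ := ih (rS A q (seg a b n)) (rF p A q (seg a b n) Y)
      have h3 : word a b (n :: ns) = seg a b n ++ word a b ns := rfl
      rw [h3, rS_append, rF_append]
      exact ⟨h1, h2⟩
  intro ns hns
  obtain ⟨h1, h2⟩ := hw ns A.start (fun j => (A.init j : ℚ_[p]))
  obtain ⟨h3, h4⟩ := run_cast (p := p) A (word a b ns) A.start A.init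
  rw [h1, h2, h4, ← h3, ev_cast]
  have h5 := hA (word a b ns)
  rw [hg ns hns] at h5
  have h6 : (A.out ((word a b ns).foldl A.step (A.start, A.init)).1).eval
      (fun j => ((word a b ns).foldl A.step (A.start, A.init)).2 j) = (Gv ns : ℚ) := h5
  rw [h6]
  simp

end run

section witness

open Pool.Agent.Helper22.CR Function

variable {S : Type} [DecidableEq S]

/-- one step of the witness -/
def hstep (a : S) (s : ℚ × ℚ) (c : S) : ℚ × ℚ :=
  if c = a then (s.1, s.2 + 1) else (s.1 * s.2 + 1, 0)

/-- the witness function -/
def wit (a : S) (w : List S) : ℚ := (w.foldl (hstep a) (1, 0)).1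

/-- the automaton for the witness -/
def witA (a : S) : CCRA S where
  State := Unit
  finite := inferInstance
  start := ()
  d := 2
  next _ _ := ()
  upd _ c := if c = a then ![.var 0, .add (.var 1) (.const 1)]
    else ![.add (.mul (.var 0) (.var 1)) (.const 1), .const 0]
  init := ![1, 0]
  out _ := .var 0
  upd_copyless := by
    intro _ c i
    by_cases h : c = a
    · simp only [if_pos h, Fin.sum_univ_two]
      fin_cases i <;> simp [Term.occ]
    · simp only [if_neg h, Fin.sum_univ_two]
      fin_cases i <;> simp [Term.occ]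
  out_copyless := by
    intro _ i
    simp only [Term.occ]
    split_ifs <;> omega

lemma witA_run (a : S) (w : List S) (x y : ℚ) :
    (w.foldl (witA a).step ((), ![x, y])).2 = ![(w.foldl (hstep a) (x, y)).1,
      (w.foldl (hstep a) (x, y)).2] := by
  induction w generalizing x y with
  | nil => rfl
  | cons c w ih =>
    have h1 : (witA a).step ((), ![x, y]) c =
        ((), ![(hstep a (x, y) c).1, (hstep a (x, y) c).2]) := by
      refine Prod.ext rfl ?_
      show (fun j => (((witA a).upd () c j).eval ![x, y] : ℚ)) = _
      by_cases h : c = a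
      · funext j
        simp only [witA, hstep, if_pos h]
        fin_cases j <;> rfl
      · funext j
        simp only [witA, hstep, if_neg h]
        fin_cases j <;> rfl
    rw [List.foldl_cons, List.foldl_cons, h1]
    exact ih _ _

lemma wit_rec (a : S) : Recognisable (wit a) := by
  refine ⟨witA a, fun w => ?_⟩
  show ((w.foldl (witA a).step ((), ![1, 0])).2 (0 : Fin 2) : ℚ) = _
  rw [witA_run]
  rfl

lemma wit_word (a b : S) (hab : b ≠ a) (ns : List ℕ) :
    (word a b ns).reverse.foldl (hstep a) (1, 0) = ((Gv ns : ℚ), 0) := by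
  rw [List.foldl_reverse]
  induction ns with
  | nil => simp [word, Gv]
  | cons n ns ih =>
    have h3 : word a b (n :: ns) = b :: (List.replicate (n + 1) a ++ word a b ns) := rfl
    rw [h3, List.foldr_cons, List.foldr_append, ih]
    have h4 : ∀ k : ℕ, List.foldr (fun x y => hstep a y x) ((Gv ns : ℚ), 0)
        (List.replicate k a) = ((Gv ns : ℚ), (k : ℚ)) := by
      intro k
      induction k with
      | zero => simp
      | succ k ihk =>
        rw [List.replicate_succ, List.foldr_cons, ihk]
        simp [hstep]
    rw [h4]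
    simp only [hstep, if_neg hab, Gv]
    push_cast
    refine Prod.ext ?_ rfl
    simp only
    ring

end witness

/-- For every finite alphabet `S` with at least two letters there is a function recognisable by a
`ℚ`-CCRA whose reversal is not. -/
theorem result (S : Type) [Fintype S] (hS : 2 ≤ Fintype.card S) :
    ∃ f : List S → ℚ, Recognisable f ∧ ¬ Recognisable (fun w => f w.reverse) := by
  classical
  have : Nontrivial S := Fintype.one_lt_card_iff_nontrivial.1 (by omega)
  obtain ⟨b, a, hab⟩ := exists_pair_ne S
  refine ⟨wit a, wit_rec a, ?_⟩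
  apply not_rec_of a b
  intro ns _
  show ((word a b ns).reverse.foldl (hstep a) (1, 0)).1 = _
  rw [wit_word a b hab]

end Pool.Agent.Results.MP_32a6cf_lc.NotClosedUnderReversal
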